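import Mathlib
import Pool.Agent.TH407.AR.Defs
set_option autoImplicit false

namespace Pool.Agent.TH71.VR

open MeasureTheory Set Complex
open scoped ENNReal NNReal Real
open Pool.Agent.TH407 Pool.Agent.TH407.AR

/-- the Gaussian phase -/
noncomputable def Ee (t a r : ℝ) : ℂ := cexp (-(1 + I * t) * (r : ℂ) ^ 2 - I * r * a)

lemma norm_Ee (t a r : ℝ) : ‖Ee t a r‖ = Real.exp (-r ^ 2) := by
  rw [Ee, Complex.norm_exp]
  congr 1
  have : (-(1 + I * (t:ℂ)) * (r : ℂ) ^ 2 - I * r * a) =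
      ((-r ^ 2 : ℝ) : ℂ) + ((- t * r ^ 2 - r * a : ℝ) : ℂ) * I := by
    push_cast; ring
  rw [this, Complex.add_re, Complex.ofReal_re, Complex.re_ofReal_mul, Complex.I_re]
  ring

lemma cont_Ee (t a : ℝ) : Continuous (Ee t a) := by
  unfold Ee; fun_prop

lemma int_pow_exp (n : ℕ) : Integrable (fun r : ℝ => r ^ n * Real.exp (-r ^ 2)) := by
  have := integrable_rpow_mul_exp_neg_mul_sq (b := 1) one_pos (s := n)
    (by have : (0:ℝ) ≤ n := Nat.cast_nonneg n; linarith)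
  refine this.congr (Filter.Eventually.of_forall fun r => ?_)
  simp [Real.rpow_natCast]

lemma int_pow_Ee (t a : ℝ) (n : ℕ) : Integrable (fun r : ℝ => (r : ℂ) ^ n * Ee t a r) := by
  refine (int_pow_exp n).mono ?_ (Filter.Eventually.of_forall fun r => ?_)
  · exact ((by fun_prop : Continuous fun r : ℝ => (r:ℂ) ^ n).mul (cont_Ee t a)).aestronglyMeasurable
  · rw [norm_mul, norm_Ee, norm_mul]
    simp [abs_of_pos (Real.exp_pos _)]

lemma deriv_Ee (t a r : ℝ) :
    HasDerivAt (Ee t a) ((-2 * (1 + I * t) * r - I * a) * Ee t a r) r := by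
  have h2 : HasDerivAt (fun z : ℂ => z ^ 2) (2 * (r : ℂ)) (r : ℂ) := by
    simpa using hasDerivAt_pow 2 (r : ℂ)
  have h1 : HasDerivAt (fun z : ℂ => z) 1 (r : ℂ) := hasDerivAt_id _
  have h3 : HasDerivAt (fun z : ℂ => -(1 + I * (t:ℂ)) * z ^ 2 - I * z * a)
      (-(1 + I * (t:ℂ)) * (2 * (r : ℂ)) - I * 1 * a) (r : ℂ) :=
    (h2.const_mul _).sub ((h1.const_mul I).mul_const _)
  have h4 := h3.cexp.comp_ofReal
  refine h4.congr_deriv ?_
  rw [Ee]
  ring

lemma z_ne (t : ℝ) : (1 + I * (t:ℂ)) ≠ 0 := by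
  intro h
  have := congrArg Complex.re h
  simp at this

lemma mom0 (t a : ℝ) : ∫ r : ℝ, Ee t a r =
    (√π : ℂ) * (1 + I * t) ^ (-(1 / 2) : ℂ) * cexp (-(a:ℂ) ^ 2 / (4 * (1 + I * t))) := by
  have hb : 0 < (1 + I * (t:ℂ)).re := by simp
  have h := fourierIntegral_gaussian hb (-(a:ℂ))
  have e1 : (fun r : ℝ => Ee t a r) =
      fun r : ℝ => cexp (I * (-(a:ℂ)) * r) * cexp (-(1 + I * (t:ℂ)) * (r:ℂ) ^ 2) := by
    funext r
    rw [Ee, ← Complex.exp_add]
    congr 1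
    ring
  rw [e1, h]
  have harg : (1 + I * (t:ℂ)).arg ≠ π := by
    intro h0
    rw [Complex.arg_eq_pi_iff] at h0
    have := h0.1
    simp at this
    linarith
  have e2 : ((π:ℂ) / (1 + I * t)) ^ (1 / 2 : ℂ) = (√π : ℂ) * (1 + I * t) ^ (-(1 / 2) : ℂ) := by
    have hz := z_ne t
    have hpi : (π:ℂ) ≠ 0 := by exact_mod_cast Real.pi_pos.ne'
    rw [Real.sqrt_eq_rpow, Complex.ofReal_cpow Real.pi_pos.le,
      Complex.cpow_def_of_ne_zero (div_ne_zero hpi hz), Complex.cpow_def_of_ne_zero hpi,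
      Complex.cpow_def_of_ne_zero hz, ← Complex.exp_add, div_eq_mul_inv,
      Complex.log_ofReal_mul Real.pi_pos (inv_ne_zero hz), Complex.log_inv _ harg,
      Complex.ofReal_log Real.pi_pos.le]
    congr 1
    push_cast
    ring
  rw [e2]
  congr 2
  ring


lemma mom1 (t a : ℝ) : ∫ r : ℝ, (r:ℂ) * Ee t a r =
    -(I * a) / (2 * (1 + I * t)) * ∫ r : ℝ, Ee t a r := by
  have hz := z_ne t
  have i0 := int_pow_Ee t a 0
  have i1 := int_pow_Ee t a 1
  simp only [pow_zero, one_mul, pow_one] at i0 i1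
  have h := integral_eq_zero_of_hasDerivAt_of_integrable (fun r => deriv_Ee t a r)
    (by
      refine ((i1.const_mul (-2 * (1 + I * t))).sub (i0.const_mul (I * a))).congr
        (Filter.Eventually.of_forall fun r => ?_)
      simp only [Pi.sub_apply]
      ring) i0
  have e : ∫ r : ℝ, (-2 * (1 + I * (t:ℂ)) * r - I * a) * Ee t a r =
      -2 * (1 + I * t) * (∫ r : ℝ, (r:ℂ) * Ee t a r) - I * a * ∫ r : ℝ, Ee t a r := by
    rw [← integral_const_mul, ← integral_const_mul, ← integral_sub (i1.const_mul _) (i0.const_mul _)]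
    congr 1
    funext r
    ring
  rw [e] at h
  field_simp
  linear_combination (-1) * h

lemma mom2 (t a : ℝ) : ∫ r : ℝ, (r:ℂ) ^ 2 * Ee t a r =
    ((√π / 2 : ℝ) : ℂ) * (1 + I * t) ^ (-(3 / 2) : ℂ) *
      ((1 - (a:ℂ) ^ 2 / (2 * (1 + I * t))) * cexp (-((a:ℂ) ^ 2 / (4 * (1 + I * t))))) := by
  have hz := z_ne t
  have i0 := int_pow_Ee t a 0
  have i1 := int_pow_Ee t a 1
  have i2 := int_pow_Ee t a 2
  simp only [pow_zero, one_mul, pow_one] at i0 i1
  have hd : ∀ r : ℝ, HasDerivAt (fun r : ℝ => (r:ℂ) * Ee t a r)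
      (1 * Ee t a r + (r:ℂ) * ((-2 * (1 + I * t) * r - I * a) * Ee t a r)) r := fun r =>
    (Complex.ofRealCLM.hasDerivAt (x := r)).mul (deriv_Ee t a r)
  have h := integral_eq_zero_of_hasDerivAt_of_integrable hd
    (by
      refine ((i0.sub (i2.const_mul (2 * (1 + I * t)))).sub (i1.const_mul (I * a))).congr
        (Filter.Eventually.of_forall fun r => ?_)
      simp only [Pi.sub_apply]
      ring) i1
  have e : ∫ r : ℝ, (1 * Ee t a r + (r:ℂ) * ((-2 * (1 + I * (t:ℂ)) * r - I * a) * Ee t a r)) =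
      (∫ r : ℝ, Ee t a r) - 2 * (1 + I * t) * (∫ r : ℝ, (r:ℂ) ^ 2 * Ee t a r)
        - I * a * ∫ r : ℝ, (r:ℂ) * Ee t a r := by
    have j1 := integral_sub i0 (i2.const_mul (2 * (1 + I * (t:ℂ))))
    have j2 := integral_sub (i0.sub (i2.const_mul (2 * (1 + I * (t:ℂ))))) (i1.const_mul (I * (a:ℂ)))
    simp only [Pi.sub_apply] at j2
    rw [← integral_const_mul, ← integral_const_mul, ← j1, ← j2]
    congr 1
    funext r
    ring
  rw [e, mom1] at h
  have h3 : ∫ r : ℝ, (r:ℂ) ^ 2 * Ee t a r =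
      (1 / (2 * (1 + I * t))) * (1 - (a:ℂ) ^ 2 / (2 * (1 + I * t))) * ∫ r : ℝ, Ee t a r := by
    field_simp
    field_simp at h
    linear_combination (-1) * h + (a:ℂ) ^ 2 * (∫ r : ℝ, Ee t a r) * Complex.I_sq
  rw [h3, mom0]
  have h4 : (1 + I * (t:ℂ)) ^ (-(3 / 2) : ℂ) = (1 + I * t) ^ (-(1 / 2) : ℂ) * (1 + I * t)⁻¹ := by
    rw [← Complex.cpow_neg_one, ← Complex.cpow_add _ _ hz]
    norm_num
  rw [h4]
  have h5 : -(a:ℂ) ^ 2 / (4 * (1 + I * t)) = -((a:ℂ) ^ 2 / (4 * (1 + I * t))) := by ring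
  rw [h5]
  push_cast
  field_simp


/-- the half-line second moment -/
noncomputable def Phi (t a : ℝ) : ℂ := ∫ r in Ioi (0:ℝ), (r:ℂ) ^ 2 * Ee t a r

lemma norm_sq_Ee (t a r : ℝ) : ‖(r:ℂ) ^ 2 * Ee t a r‖ = r ^ 2 * Real.exp (-r ^ 2) := by
  rw [norm_mul, norm_Ee, norm_pow, Complex.norm_real, Real.norm_eq_abs, sq_abs]

lemma cont_Phi (t : ℝ) : Continuous (Phi t) := by
  refine continuous_of_dominated (bound := fun r => r ^ 2 * Real.exp (-r ^ 2)) (fun a => ?_)
    (fun a => Filter.Eventually.of_forall fun r => (norm_sq_Ee t a r).le)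
    (int_pow_exp 2).integrableOn (Filter.Eventually.of_forall fun r => ?_)
  · exact ((by fun_prop : Continuous fun r : ℝ => (r:ℂ) ^ 2).mul (cont_Ee t a)).aestronglyMeasurable
  · unfold Ee; fun_prop

lemma norm_Phi_le (t a : ℝ) : ‖Phi t a‖ ≤ ∫ r in Ioi (0:ℝ), r ^ 2 * Real.exp (-r ^ 2) := by
  refine (norm_integral_le_integral_norm _).trans (le_of_eq ?_)
  congr 1
  funext r
  exact norm_sq_Ee t a r

lemma Phi_add (t a : ℝ) : Phi t a + Phi t (-a) = ∫ r : ℝ, (r:ℂ) ^ 2 * Ee t a r := by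
  have h : Phi t (-a) = ∫ r in Iic (0:ℝ), (r:ℂ) ^ 2 * Ee t a r := by
    have := integral_comp_neg_Ioi (0:ℝ) (fun r : ℝ => (r:ℂ) ^ 2 * Ee t a r)
    rw [neg_zero] at this
    rw [← this, Phi]
    congr 1
    funext r
    unfold Ee
    push_cast
    ring_nf
  rw [h, add_comm, Phi, ← intervalIntegral.integral_Iic_add_Ioi (int_pow_Ee t a 2).integrableOn
    (int_pow_Ee t a 2).integrableOn]

/-- swapping the two halves of the interval -/
lemma swap (f k : ℝ → ℂ) (hf : IntegrableOn f (Ioo (-π) π)) (hk : IntegrableOn k (Ioo (-π) π))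
    (h1 : ∀ θ ∈ Ioo (-π) 0, k (θ + π) = f θ) (h2 : ∀ θ ∈ Ioo (-π) 0, f (θ + π) = k θ) :
    ∫ θ in Ioo (-π) π, f θ = ∫ θ in Ioo (-π) π, k θ := by
  have hpi := Real.pi_pos
  have key : ∀ u : ℝ → ℂ, IntegrableOn u (Ioo (-π) π) →
      ∫ θ in Ioo (-π) π, u θ = (∫ θ in (-π)..0, u θ) + ∫ θ in (-π)..0, u (θ + π) := by
    intro u hu
    have hu' : IntervalIntegrable u volume (-π) π := by
      rw [intervalIntegrable_iff_integrableOn_Ioo_of_le (by linarith)]
      exact hu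
    rw [← integral_Ioc_eq_integral_Ioo, ← intervalIntegral.integral_of_le (by linarith),
      intervalIntegral.integral_comp_add_right, neg_add_cancel, zero_add]
    refine (intervalIntegral.integral_add_adjacent_intervals (hu'.mono_set ?_)
      (hu'.mono_set ?_)).symm
    · rw [uIcc_of_le (by linarith), uIcc_of_le (by linarith)]
      exact Icc_subset_Icc le_rfl (by linarith)
    · rw [uIcc_of_le (by linarith), uIcc_of_le (by linarith)]
      exact Icc_subset_Icc (by linarith) le_rfl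
  have cg : ∀ u v : ℝ → ℂ, (∀ θ ∈ Ioo (-π) 0, u θ = v θ) →
      ∫ θ in (-π)..0, u θ = ∫ θ in (-π)..0, v θ := by
    intro u v huv
    rw [intervalIntegral.integral_of_le (by linarith), intervalIntegral.integral_of_le (by linarith),
      integral_Ioc_eq_integral_Ioo, integral_Ioc_eq_integral_Ioo]
    exact setIntegral_congr_fun measurableSet_Ioo huv
  rw [key f hf, key k hk, cg (fun θ => k (θ + π)) f h1, cg (fun θ => f (θ + π)) k h2, add_comm]

lemma polar_form (g : ℝ → ℂ) (hg : Measurable g) (B : ℝ) (hB : ∀ θ, ‖g θ‖ ≤ B) (ρ α t : ℝ) :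
    EX (bg g) (pol ρ α) t = ∫ θ in Ioo (-π) π, g θ * Phi t (ρ * Real.cos (θ - α)) := by
  have h1 : EX (bg g) (pol ρ α) t = ∫ p in Ioi (0:ℝ) ×ˢ Ioo (-π) π,
      (p.1:ℂ) ^ 2 * Ee t (ρ * Real.cos (p.2 - α)) p.1 * g p.2 := by
    rw [EX, ← integral_comp_polarCoord_symm, polarCoord_target]
    refine setIntegral_congr_fun (measurableSet_Ioi.prod measurableSet_Ioo) fun p hp => ?_
    have hp' : p ∈ polarCoord.target := by rw [polarCoord_target]; exact hp
    have hr : 0 < p.1 := hp.1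
    have ha : ang (p.1 * Real.cos p.2, p.1 * Real.sin p.2) = p.2 := by
      rw [ang, ← polarCoord_symm_apply, polarCoord.right_inv hp']
    have hs : AR.sq (p.1 * Real.cos p.2, p.1 * Real.sin p.2) = p.1 ^ 2 := by
      rw [AR.sq]
      have := Real.sin_sq_add_cos_sq p.2
      linear_combination p.1 ^ 2 * this
    simp only [bg, bas, pol, polarCoord_symm_apply, ha, hs, Real.sqrt_sq hr.le]
    rw [Ee, Real.cos_sub, Complex.real_smul]
    have e : cexp (-(I * ((p.1 * Real.cos p.2 * (ρ * Real.cos α) +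
        p.1 * Real.sin p.2 * (ρ * Real.sin α) + p.1 ^ 2 * t : ℝ) : ℂ))) *
        ((Real.exp (-p.1 ^ 2) : ℝ) : ℂ) =
        cexp (-(1 + I * (t:ℂ)) * (p.1:ℂ) ^ 2 - I * p.1 *
          ((ρ * (Real.cos p.2 * Real.cos α + Real.sin p.2 * Real.sin α) : ℝ) : ℂ)) := by
      rw [Complex.ofReal_exp, ← Complex.exp_add]
      congr 1
      push_cast
      ring
    rw [← e]
    push_cast
    ring
  have hint : Integrable (fun p : ℝ × ℝ => (p.1:ℂ) ^ 2 * Ee t (ρ * Real.cos (p.2 - α)) p.1 * g p.2)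
      ((volume.restrict (Ioi (0:ℝ))).prod (volume.restrict (Ioo (-π) π))) := by
    have hb : Integrable (fun p : ℝ × ℝ => (p.1 ^ 2 * Real.exp (-p.1 ^ 2)) * B)
        ((volume.restrict (Ioi (0:ℝ))).prod (volume.restrict (Ioo (-π) π))) :=
      (int_pow_exp 2).integrableOn.mul_prod (integrable_const B)
    refine hb.mono' ?_ (Filter.Eventually.of_forall fun p => ?_)
    · have c1 : Continuous fun p : ℝ × ℝ => (p.1:ℂ) ^ 2 * Ee t (ρ * Real.cos (p.2 - α)) p.1 := by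
        unfold Ee; fun_prop
      exact (c1.measurable.mul (hg.comp measurable_snd)).aestronglyMeasurable
    · rw [norm_mul, norm_sq_Ee]
      exact mul_le_mul_of_nonneg_left (hB _) (by positivity)
  rw [h1, Measure.volume_eq_prod, ← Measure.prod_restrict, integral_prod_symm _ hint]
  congr 1
  funext θ
  simp only
  rw [integral_mul_const, mul_comm, Phi]

theorem exact : Exact := by
  intro g hg hB hper ρ hρ α t
  obtain ⟨B, hB⟩ := hB
  have hpi := Real.pi_pos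
  rw [polar_form g hg B hB]
  have hi : ∀ s : ℝ, IntegrableOn (fun θ => g θ * Phi t (s * Real.cos (θ - α))) (Ioo (-π) π) := by
    intro s
    have c1 : Continuous fun θ : ℝ => Phi t (s * Real.cos (θ - α)) := by
      have := cont_Phi t; fun_prop
    refine (integrable_const (B * ∫ r in Ioi (0:ℝ), r ^ 2 * Real.exp (-r ^ 2))).mono'
      (hg.mul c1.measurable).aestronglyMeasurable (Filter.Eventually.of_forall fun θ => ?_)
    rw [norm_mul]
    exact mul_le_mul (hB _) (norm_Phi_le _ _) (norm_nonneg _) ((norm_nonneg _).trans (hB 0))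
  have hsw : ∫ θ in Ioo (-π) π, g θ * Phi t (ρ * Real.cos (θ - α)) =
      ∫ θ in Ioo (-π) π, g θ * Phi t ((-ρ) * Real.cos (θ - α)) := by
    refine swap _ _ (hi ρ) (hi (-ρ)) (fun θ hθ => ?_) (fun θ hθ => ?_)
    · rw [hper θ hθ, show θ + π - α = θ - α + π by ring, Real.cos_add_pi]
      ring_nf
    · rw [hper θ hθ, show θ + π - α = θ - α + π by ring, Real.cos_add_pi]
      ring_nf
  have h2 : ∫ θ in Ioo (-π) π, g θ * Phi t (ρ * Real.cos (θ - α)) =
      (1 / 2 : ℂ) * ∫ θ in Ioo (-π) π, g θ *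
        ∫ r : ℝ, (r:ℂ) ^ 2 * Ee t (ρ * Real.cos (θ - α)) r := by
    have e : ∫ θ in Ioo (-π) π, g θ * (∫ r : ℝ, (r:ℂ) ^ 2 * Ee t (ρ * Real.cos (θ - α)) r) =
        (∫ θ in Ioo (-π) π, g θ * Phi t (ρ * Real.cos (θ - α))) +
          ∫ θ in Ioo (-π) π, g θ * Phi t ((-ρ) * Real.cos (θ - α)) := by
      rw [← integral_add (hi ρ) (hi (-ρ))]
      congr 1
      funext θ
      rw [← Phi_add, neg_mul]
      ring
    rw [e, ← hsw]
    ring
  rw [h2]
  rw [show ((√π / 4 : ℝ) : ℂ) * (1 + I * (t:ℂ)) ^ (-(3 / 2) : ℂ) =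
    (1 / 2 : ℂ) * (((√π / 2 : ℝ) : ℂ) * (1 + I * t) ^ (-(3 / 2) : ℂ)) by push_cast; ring, mul_assoc]
  congr 1
  rw [← integral_const_mul]
  congr 1
  funext θ
  rw [mom2]
  ring

end Pool.Agent.TH71.VR
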