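import Mathlib
import Pool.Agent.TH407.AR.Defs
set_option autoImplicit false

namespace Pool.Agent.TH71.VR

open MeasureTheory Set Complex
open scoped ENNReal NNReal Real
open Pool.Agent.TH407.AR

lemma int_inv : Integrable (fun κ : ℝ => (1 + κ ^ 2)⁻¹) := integrable_inv_one_add_sq

lemma ss_nonneg (x : ℝ) : 0 ≤ 1 + Real.cos x := by
  linarith [Real.neg_one_le_cos x]

lemma norm_cexp_I (x : ℝ) : ‖cexp (I * (x : ℂ))‖ = 1 := by
  rw [mul_comm]; exact Complex.norm_exp_ofReal_mul_I x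

lemma enorm_cexp_I (x : ℝ) : ‖cexp (I * (x : ℂ))‖ₑ = 1 := by
  rw [← ofReal_norm, norm_cexp_I, ENNReal.ofReal_one]

/-- writing a function of `u s` through its Fourier representation -/
lemma key (R : ℝ → ℝ) (hR : Continuous R) (bR : ∀ κ, |R κ| ≤ (1 + κ ^ 2)⁻¹) (φ : ℝ → ℂ)
    (iR : ∀ x : ℝ, 0 ≤ x → ∫ κ : ℝ, cexp (I * ((κ * x : ℝ) : ℂ)) * (R κ : ℂ) = φ x)
    (f : ℝ → ℂ) (hf : Measurable f) (B : ℝ) (hB : ∀ θ, ‖f θ‖ ≤ B) (u t α : ℝ) (hu : 0 ≤ u) :
    ‖∫ θ in Ioo (-π) π, φ (u * (1 + Real.cos (2 * (θ - α)))) *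
      (cexp (I * ((u * (1 + Real.cos (2 * (θ - α))) * t : ℝ) : ℂ)) * f θ)‖ₑ ≤
      ∫⁻ κ : ℝ, ENNReal.ofReal ((1 + κ ^ 2)⁻¹) * ‖H f (u * (t + κ)) α‖ₑ := by
  have e1 : ∀ θ : ℝ, φ (u * (1 + Real.cos (2 * (θ - α)))) *
      (cexp (I * ((u * (1 + Real.cos (2 * (θ - α))) * t : ℝ) : ℂ)) * f θ) =
      ∫ κ : ℝ, (R κ : ℂ) * (cexp (I * ((u * (t + κ) * (1 + Real.cos (2 * (θ - α))) : ℝ) : ℂ)) *
        f θ) := by
    intro θ
    rw [← iR _ (mul_nonneg hu (ss_nonneg _)), ← integral_mul_const]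
    congr 1
    funext κ
    rw [show I * ((u * (t + κ) * (1 + Real.cos (2 * (θ - α))) : ℝ) : ℂ) =
      I * ((κ * (u * (1 + Real.cos (2 * (θ - α)))) : ℝ) : ℂ) +
      I * ((u * (1 + Real.cos (2 * (θ - α))) * t : ℝ) : ℂ) by push_cast; ring, Complex.exp_add]
    ring
  have hint : Integrable (Function.uncurry fun θ κ : ℝ =>
      (R κ : ℂ) * (cexp (I * ((u * (t + κ) * (1 + Real.cos (2 * (θ - α))) : ℝ) : ℂ)) * f θ))
      ((volume.restrict (Ioo (-π) π)).prod volume) := by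
    have hb : Integrable (fun p : ℝ × ℝ => B * (1 + p.2 ^ 2)⁻¹)
        ((volume.restrict (Ioo (-π) π)).prod volume) :=
      (integrable_const B).mul_prod int_inv
    refine hb.mono' ?_ (Filter.Eventually.of_forall fun p => ?_)
    · have c1 : Continuous fun p : ℝ × ℝ => (R p.2 : ℂ) := by fun_prop
      have c2 : Continuous fun p : ℝ × ℝ =>
        cexp (I * ((u * (t + p.2) * (1 + Real.cos (2 * (p.1 - α))) : ℝ) : ℂ)) := by fun_prop
      exact (c1.measurable.mul (c2.measurable.mul (hf.comp measurable_fst))).aestronglyMeasurable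
    · simp only [Function.uncurry]
      rw [norm_mul, norm_mul, norm_cexp_I, one_mul, Complex.norm_real, Real.norm_eq_abs, mul_comm]
      exact mul_le_mul (hB _) (bR _) (abs_nonneg _) ((norm_nonneg _).trans (hB 0))
  have e2 : ∫ θ in Ioo (-π) π, φ (u * (1 + Real.cos (2 * (θ - α)))) *
      (cexp (I * ((u * (1 + Real.cos (2 * (θ - α))) * t : ℝ) : ℂ)) * f θ) =
      ∫ κ : ℝ, (R κ : ℂ) * H f (u * (t + κ)) α := by
    rw [integral_congr_ae (Filter.Eventually.of_forall e1), integral_integral_swap hint]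
    congr 1
    funext κ
    rw [integral_const_mul, H]
  rw [e2]
  refine (enorm_integral_le_lintegral_enorm _).trans (lintegral_mono fun κ => ?_)
  rw [enorm_mul]
  refine mul_le_mul' ?_ le_rfl
  rw [← ofReal_norm, Complex.norm_real, Real.norm_eq_abs]
  exact ENNReal.ofReal_le_ofReal (bR κ)

lemma H_s_le (g : ℝ → ℂ) (hg : Measurable g) (B : ℝ) (hB : ∀ θ, ‖g θ‖ ≤ B) (l α : ℝ) :
    ‖H (fun θ => ((1 + Real.cos (2 * (θ - α)) : ℝ) : ℂ) * g θ) l α‖ₑ ≤ HH g l α := by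
  have hi : ∀ w : ℝ → ℝ, Continuous w → (∀ θ, |w θ| ≤ 1) → IntegrableOn (fun θ : ℝ =>
      cexp (I * ((l * (1 + Real.cos (2 * (θ - α))) : ℝ) : ℂ)) * (((w θ : ℝ) : ℂ) * g θ))
      (Ioo (-π) π) := by
    intro w hw hw1
    have c1 : Continuous fun θ : ℝ => cexp (I * ((l * (1 + Real.cos (2 * (θ - α))) : ℝ) : ℂ)) := by
      fun_prop
    have c2 : Continuous fun θ : ℝ => ((w θ : ℝ) : ℂ) := by fun_prop
    refine (integrable_const B).mono'
      (c1.measurable.mul (c2.measurable.mul hg)).aestronglyMeasurable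
      (Filter.Eventually.of_forall fun θ => ?_)
    rw [norm_mul, norm_mul, norm_cexp_I, one_mul, Complex.norm_real, Real.norm_eq_abs]
    calc |w θ| * ‖g θ‖ ≤ 1 * B := mul_le_mul (hw1 θ) (hB θ) (norm_nonneg _) zero_le_one
      _ = B := one_mul B
  have i0 := hi (fun _ => 1) continuous_const (fun _ => by simp)
  have i1 := hi (fun θ => Real.cos (2 * θ)) (by fun_prop) (fun _ => Real.abs_cos_le_one _)
  have i2 := hi (fun θ => Real.sin (2 * θ)) (by fun_prop) (fun _ => Real.abs_sin_le_one _)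
  simp only [Complex.ofReal_one, one_mul] at i0
  have e : H (fun θ => ((1 + Real.cos (2 * (θ - α)) : ℝ) : ℂ) * g θ) l α =
      H g l α + ((Real.cos (2 * α) : ℝ) : ℂ) * H (fun θ => ((Real.cos (2 * θ) : ℝ) : ℂ) * g θ) l α +
      ((Real.sin (2 * α) : ℝ) : ℂ) * H (fun θ => ((Real.sin (2 * θ) : ℝ) : ℂ) * g θ) l α := by
    unfold H
    rw [← integral_const_mul, ← integral_const_mul]
    have j1 := integral_add i0 (i1.const_mul ((Real.cos (2 * α) : ℝ) : ℂ))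
    have j2 := integral_add (i0.add (i1.const_mul ((Real.cos (2 * α) : ℝ) : ℂ)))
      (i2.const_mul ((Real.sin (2 * α) : ℝ) : ℂ))
    simp only [Pi.add_apply] at j2
    rw [← j1, ← j2]
    congr 1
    funext θ
    have hc : ((1 + Real.cos (2 * (θ - α)) : ℝ) : ℂ) = 1 + ((Real.cos (2 * α) : ℝ) : ℂ) *
        ((Real.cos (2 * θ) : ℝ) : ℂ) + ((Real.sin (2 * α) : ℝ) : ℂ) *
        ((Real.sin (2 * θ) : ℝ) : ℂ) := by
      rw [show 2 * (θ - α) = 2 * θ - 2 * α by ring, Real.cos_sub]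
      push_cast
      ring
    simp only [hc]
    ring
  rw [e]
  refine (enorm_add_le _ _).trans ?_
  unfold HH
  refine add_le_add ((enorm_add_le _ _).trans (add_le_add le_rfl ?_)) ?_
  · rw [enorm_mul]
    refine mul_le_of_le_one_left' ?_
    rw [← ofReal_norm, Complex.norm_real, Real.norm_eq_abs]
    exact ENNReal.ofReal_le_one.mpr (Real.abs_cos_le_one _)
  · rw [enorm_mul]
    refine mul_le_of_le_one_left' ?_
    rw [← ofReal_norm, Complex.norm_real, Real.norm_eq_abs]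
    exact ENNReal.ofReal_le_one.mpr (Real.abs_sin_le_one _)

lemma min_bound (u : ℝ) (hu : 0 ≤ u) (x J : ℝ≥0∞) (h1 : x ≤ J) (h2 : x ≤ ENNReal.ofReal u * J) :
    x ≤ ENNReal.ofReal (2 * (u / (1 + u))) * J := by
  rcases le_total u 1 with h | h
  · refine h2.trans (mul_le_mul' (ENNReal.ofReal_le_ofReal ?_) le_rfl)
    rw [mul_div_assoc', le_div_iff₀ (by linarith)]
    nlinarith
  · refine h1.trans ?_
    calc J = ENNReal.ofReal 1 * J := by rw [ENNReal.ofReal_one, one_mul]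
      _ ≤ _ := by
        refine mul_le_mul' (ENNReal.ofReal_le_ofReal ?_) le_rfl
        rw [mul_div_assoc', le_div_iff₀ (by linarith)]
        linarith

lemma norm_z (t : ℝ) : ‖(1 + I * (t:ℂ))‖ = (1 + t ^ 2) ^ (1 / 2 : ℝ) := by
  rw [← Real.sqrt_eq_rpow, Complex.norm_def, Complex.normSq_apply]
  congr 1
  simp
  ring

lemma norm_z' (t : ℝ) : ‖(1 - I * (t:ℂ))‖ = (1 + t ^ 2) ^ (1 / 2 : ℝ) := by
  rw [← Real.sqrt_eq_rpow, Complex.norm_def, Complex.normSq_apply]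
  congr 1
  simp
  ring

theorem base_of (hP : Poisson) (hE : Exact) : BaseBound := by
  obtain ⟨P, Q, cP, cQ, bP, bQ, iP, iQ⟩ := hP
  refine ⟨4, ?_⟩
  intro g hg hB hper ρ hρ α t
  obtain ⟨B, hB⟩ := hB
  have hu : 0 ≤ uu ρ t := by unfold uu; positivity
  set u := uu ρ t with hudef
  have hz : (1 + I * (t:ℂ)) ≠ 0 := by
    intro h
    have := congrArg Complex.re h
    simp at this
  -- the two integrals
  set E : ℝ → ℂ := fun θ => cexp (I * ((u * (1 + Real.cos (2 * (θ - α))) * t : ℝ) : ℂ)) * g θ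
    with hEdef
  set A1 : ℂ := ∫ θ in Ioo (-π) π, ((Real.exp (-(u * (1 + Real.cos (2 * (θ - α)))))) : ℂ) * E θ
    with hA1
  set A2 : ℂ := ∫ θ in Ioo (-π) π, ((u * (1 + Real.cos (2 * (θ - α))) *
    Real.exp (-(u * (1 + Real.cos (2 * (θ - α))))) : ℝ) : ℂ) * E θ with hA2
  set J : ℝ≥0∞ := ∫⁻ κ : ℝ, ENNReal.ofReal ((1 + κ ^ 2)⁻¹) * HH g (u * (t + κ)) α with hJ
  have hHle : ∀ l : ℝ, ‖H g l α‖ₑ ≤ HH g l α := by
    intro l
    unfold HH
    rw [add_assoc]
    exact le_self_add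
  have b1 : ‖A1‖ₑ ≤ J := by
    refine (key P cP bP _ iP g hg B hB u t α hu).trans (lintegral_mono fun κ => ?_)
    exact mul_le_mul' le_rfl (hHle _)
  have b2 : ‖A2‖ₑ ≤ J := by
    refine (key Q cQ bQ _ iQ g hg B hB u t α hu).trans (lintegral_mono fun κ => ?_)
    exact mul_le_mul' le_rfl (hHle _)
  have b3 : ‖A2‖ₑ ≤ ENNReal.ofReal u * J := by
    have e : A2 = (u : ℂ) * ∫ θ in Ioo (-π) π, ((Real.exp (-(u * (1 + Real.cos (2 * (θ - α)))))) : ℂ) *
        (cexp (I * ((u * (1 + Real.cos (2 * (θ - α))) * t : ℝ) : ℂ)) *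
          (((1 + Real.cos (2 * (θ - α)) : ℝ) : ℂ) * g θ)) := by
      rw [hA2, ← integral_const_mul]
      congr 1
      funext θ
      rw [hEdef]
      push_cast
      ring
    rw [e, enorm_mul]
    refine mul_le_mul' ?_ ?_
    · rw [← ofReal_norm, Complex.norm_real, Real.norm_eq_abs, abs_of_nonneg hu]
    · have hm : Measurable fun θ : ℝ => ((1 + Real.cos (2 * (θ - α)) : ℝ) : ℂ) * g θ := by
        have c1 : Continuous fun θ : ℝ => ((1 + Real.cos (2 * (θ - α)) : ℝ) : ℂ) := by fun_prop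
        exact c1.measurable.mul hg
      refine (key P cP bP _ iP _ hm (2 * B) (fun θ => ?_) u t α hu).trans
        (lintegral_mono fun κ => mul_le_mul' le_rfl (H_s_le g hg B hB _ α))
      rw [norm_mul, Complex.norm_real, Real.norm_eq_abs, abs_of_nonneg (ss_nonneg _)]
      refine mul_le_mul ?_ (hB θ) (norm_nonneg _) (by norm_num)
      linarith [Real.cos_le_one (2 * (θ - α))]
  have b4 := min_bound u hu _ _ b2 b3
  -- integrability of the two integrands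
  have hiE : ∀ w : ℝ → ℝ, Continuous w → (∀ θ, |w θ| ≤ 1) →
      IntegrableOn (fun θ : ℝ => ((w θ : ℝ) : ℂ) * E θ) (Ioo (-π) π) := by
    intro w hw hw1
    have c1 : Continuous fun θ : ℝ =>
      cexp (I * ((u * (1 + Real.cos (2 * (θ - α))) * t : ℝ) : ℂ)) := by
      fun_prop
    have c2 : Continuous fun θ : ℝ => ((w θ : ℝ) : ℂ) := by fun_prop
    refine (integrable_const B).mono'
      (c2.measurable.mul (c1.measurable.mul hg)).aestronglyMeasurable
      (Filter.Eventually.of_forall fun θ => ?_)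
    rw [norm_mul, norm_mul, norm_cexp_I, one_mul, Complex.norm_real, Real.norm_eq_abs]
    calc |w θ| * ‖g θ‖ ≤ 1 * B := mul_le_mul (hw1 θ) (hB θ) (norm_nonneg _) zero_le_one
      _ = B := one_mul B
  have i1 := hiE (fun θ => Real.exp (-(u * (1 + Real.cos (2 * (θ - α)))))) (by fun_prop)
    (fun θ => by
      rw [abs_of_pos (Real.exp_pos _), Real.exp_le_one_iff]
      have := mul_nonneg hu (ss_nonneg (2 * (θ - α)))
      linarith)
  have i2 := hiE (fun θ => u * (1 + Real.cos (2 * (θ - α))) *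
      Real.exp (-(u * (1 + Real.cos (2 * (θ - α)))))) (by fun_prop)
    (fun θ => by
      have h0 := mul_nonneg hu (ss_nonneg (2 * (θ - α)))
      rw [abs_of_nonneg (mul_nonneg h0 (Real.exp_pos _).le)]
      set x := u * (1 + Real.cos (2 * (θ - α)))
      have h1 : x ≤ Real.exp x := by linarith [Real.add_one_le_exp x]
      calc x * Real.exp (-x) ≤ Real.exp x * Real.exp (-x) :=
            mul_le_mul_of_nonneg_right h1 (Real.exp_pos _).le
        _ = 1 := by rw [← Real.exp_add, add_neg_cancel, Real.exp_zero])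
  have hform : EX (bg g) (pol ρ α) t = ((√π / 4 : ℝ) : ℂ) * (1 + I * t) ^ (-(3 / 2) : ℂ) *
      (A1 - 2 * (1 - I * t) * A2) := by
    have j := integral_sub i1 (i2.const_mul (2 * (1 - I * (t:ℂ))))
    rw [integral_const_mul] at j
    rw [hE g hg ⟨B, hB⟩ hper ρ hρ α t, hA1, hA2, ← j]
    congr 1
    congr 1
    funext θ
    have hcos : Real.cos (θ - α) ^ 2 = (1 + Real.cos (2 * (θ - α))) / 2 := by
      rw [Real.cos_sq]; ring
    have ha : (((ρ * Real.cos (θ - α) : ℝ) : ℂ)) ^ 2 =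
        ((ρ ^ 2 * ((1 + Real.cos (2 * (θ - α))) / 2) : ℝ) : ℂ) := by
      rw [← hcos]; push_cast; ring
    have ht : ((1:ℂ) + (t:ℂ) ^ 2) ≠ 0 := by
      have : (1 + t ^ 2 : ℝ) ≠ 0 := by positivity
      exact_mod_cast this
    have hzz : (1 + I * (t:ℂ))⁻¹ = (1 - I * t) / (1 + (t:ℂ) ^ 2) := by
      rw [eq_div_iff ht, inv_mul_eq_iff_eq_mul₀ hz]
      linear_combination (t:ℂ) ^ 2 * Complex.I_sq
    have h4 : (((ρ * Real.cos (θ - α) : ℝ) : ℂ)) ^ 2 / (4 * (1 + I * t)) =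
        ((u * (1 + Real.cos (2 * (θ - α))) : ℝ) : ℂ) * (1 - I * t) := by
      rw [ha, div_eq_mul_inv, mul_inv, hzz, hudef, uu]
      push_cast
      field_simp
      ring
    have h2 : (((ρ * Real.cos (θ - α) : ℝ) : ℂ)) ^ 2 / (2 * (1 + I * t)) =
        2 * (((u * (1 + Real.cos (2 * (θ - α))) : ℝ) : ℂ) * (1 - I * t)) := by
      rw [← h4]; field_simp; ring
    rw [h4, h2, hEdef]
    set x := u * (1 + Real.cos (2 * (θ - α))) with hx
    have h5 : cexp (-((x : ℂ) * (1 - I * t))) = ((Real.exp (-x) : ℝ) : ℂ) *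
        cexp (I * ((x * t : ℝ) : ℂ)) := by
      rw [Complex.ofReal_exp, ← Complex.exp_add]
      congr 1
      push_cast
      ring
    rw [h5]
    simp only [← hx]
    generalize cexp (I * ((x * t : ℝ) : ℂ)) = w
    generalize Real.exp (-x) = e
    push_cast
    ring
  have h0 : (0:ℝ) < 1 + t ^ 2 := by positivity
  have n1 : ‖((√π / 4 : ℝ) : ℂ) * (1 + I * t) ^ (-(3 / 2) : ℂ)‖ₑ ≤
      ENNReal.ofReal ((1 / 2) * (1 + t ^ 2) ^ (-(3 / 4) : ℝ)) := by
    rw [← ofReal_norm]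
    refine ENNReal.ofReal_le_ofReal ?_
    rw [norm_mul, Complex.norm_real, Real.norm_eq_abs, abs_of_nonneg (by positivity),
      show (-(3 / 2) : ℂ) = ((-(3 / 2) : ℝ) : ℂ) by push_cast; ring, Complex.norm_cpow_real, norm_z,
      ← Real.rpow_mul h0.le]
    refine mul_le_mul ?_ (le_of_eq (by norm_num)) (by positivity) (by norm_num)
    have : √π ≤ 2 := by
      rw [Real.sqrt_le_left (by norm_num)]
      linarith [Real.pi_le_four]
    linarith
  have n2 : ‖A1 - 2 * (1 - I * t) * A2‖ₑ ≤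
      (1 + ENNReal.ofReal (4 * (1 + t ^ 2) ^ (1 / 2 : ℝ) * (u / (1 + u)))) * J := by
    refine (enorm_sub_le).trans ?_
    rw [add_mul, one_mul]
    refine add_le_add b1 ?_
    rw [enorm_mul]
    calc ‖2 * (1 - I * (t:ℂ))‖ₑ * ‖A2‖ₑ
        ≤ ENNReal.ofReal (2 * (1 + t ^ 2) ^ (1 / 2 : ℝ)) *
          (ENNReal.ofReal (2 * (u / (1 + u))) * J) := by
          refine mul_le_mul' (le_of_eq ?_) b4
          rw [← ofReal_norm, norm_mul, norm_z']
          norm_num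
      _ = ENNReal.ofReal (4 * (1 + t ^ 2) ^ (1 / 2 : ℝ) * (u / (1 + u))) * J := by
          rw [← mul_assoc, ← ENNReal.ofReal_mul (by positivity)]
          congr 2
          ring
  have hJ2 : ∫⁻ κ : ℝ, ENNReal.ofReal ((1 + κ ^ 2)⁻¹ *
      ((1 + t ^ 2) ^ (-(3 / 4) : ℝ) + (1 + t ^ 2) ^ (-(1 / 4) : ℝ) * (u / (1 + u)))) *
        HH g (u * (t + κ)) α =
      ENNReal.ofReal ((1 + t ^ 2) ^ (-(3 / 4) : ℝ) + (1 + t ^ 2) ^ (-(1 / 4) : ℝ) * (u / (1 + u))) *
        J := by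
    rw [hJ, ← lintegral_const_mul' _ _ ENNReal.ofReal_ne_top]
    congr 1
    funext κ
    rw [ENNReal.ofReal_mul (by positivity)]
    ring
  rw [hJ2, hform, enorm_mul, ← mul_assoc]
  refine (mul_le_mul' n1 n2).trans ?_
  rw [← mul_assoc]
  refine mul_le_mul' ?_ le_rfl
  have hone : (1:ℝ≥0∞) = ENNReal.ofReal 1 := ENNReal.ofReal_one.symm
  have hfour : ((4 : ℝ≥0) : ℝ≥0∞) = ENNReal.ofReal 4 := by norm_num
  rw [hone, hfour, ← ENNReal.ofReal_add (by norm_num) (by positivity),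
    ← ENNReal.ofReal_mul (by positivity), ← ENNReal.ofReal_mul (by positivity)]
  refine ENNReal.ofReal_le_ofReal ?_
  have e14 : (1 + t ^ 2) ^ (-(3 / 4) : ℝ) * (1 + t ^ 2) ^ (1 / 2 : ℝ) =
      (1 + t ^ 2) ^ (-(1 / 4) : ℝ) := by
    rw [← Real.rpow_add h0]; norm_num
  have p1 : 0 ≤ (1 + t ^ 2) ^ (-(3 / 4) : ℝ) := by positivity
  have p2 : 0 ≤ (1 + t ^ 2) ^ (-(1 / 4) : ℝ) * (u / (1 + u)) := by positivity
  calc 1 / 2 * (1 + t ^ 2) ^ (-(3 / 4) : ℝ) * (1 + 4 * (1 + t ^ 2) ^ (1 / 2 : ℝ) * (u / (1 + u)))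
      = 1 / 2 * (1 + t ^ 2) ^ (-(3 / 4) : ℝ) +
        2 * (((1 + t ^ 2) ^ (-(3 / 4) : ℝ) * (1 + t ^ 2) ^ (1 / 2 : ℝ)) * (u / (1 + u))) := by ring
    _ = 1 / 2 * (1 + t ^ 2) ^ (-(3 / 4) : ℝ) +
        2 * ((1 + t ^ 2) ^ (-(1 / 4) : ℝ) * (u / (1 + u))) := by rw [e14]
    _ ≤ _ := by linarith

end Pool.Agent.TH71.VR
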